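import Mathlib

/-!
# PWN: three almost idempotent doubly stochastic matrices

If `P1`, `P2`, `P3` are doubly stochastic matrices indexed by a finite set `X` of `d` elements such that
`P1 P3` is close to `P1` and `P3`, `P1 P2` is close to `P1` and `P2`, `P1` is almost invariant under
the permutations in `S` on the right and `P3` under those in `T` on the left, and the permutations in
`S` and `T` generate a transitive group, then all entries of the three matrices are at least
`1 / (2 d)`.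
-/

namespace Pool.Agent.PWN

open Matrix Finset

variable {X : Type*} [Fintype X]

/-- The sum of the squares of the entries. -/
def nn (A : Matrix X X ℝ) : ℝ := ∑ i, ∑ j, A i j ^ 2

/-- The sum of the products of the entries. -/
def ip (A B : Matrix X X ℝ) : ℝ := ∑ i, ∑ j, A i j * B i j

/-- Doubly stochastic. -/
structure DS (P : Matrix X X ℝ) : Prop where
  nonneg : ∀ i j, 0 ≤ P i j
  row : ∀ i, ∑ j, P i j = 1
  col : ∀ j, ∑ i, P i j = 1

theorem nn_nonneg (A : Matrix X X ℝ) : 0 ≤ nn A :=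
  sum_nonneg fun _ _ => sum_nonneg fun _ _ => sq_nonneg _

theorem sq_le_nn (A : Matrix X X ℝ) (i j : X) : A i j ^ 2 ≤ nn A := by
  unfold nn
  refine le_trans ?_ (single_le_sum (f := fun i => ∑ j, A i j ^ 2)
    (fun i _ => sum_nonneg fun _ _ => sq_nonneg _) (mem_univ i))
  exact single_le_sum (f := fun j => A i j ^ 2) (fun j _ => sq_nonneg _) (mem_univ j)

theorem nn_add (A B : Matrix X X ℝ) : nn (A + B) ≤ 2 * nn A + 2 * nn B := by
  unfold nn
  rw [mul_sum, mul_sum, ← sum_add_distrib]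
  refine sum_le_sum fun i _ => ?_
  rw [mul_sum, mul_sum, ← sum_add_distrib]
  refine sum_le_sum fun j _ => ?_
  rw [Matrix.add_apply]
  nlinarith [sq_nonneg (A i j - B i j)]

theorem nn_add3 (A B C : Matrix X X ℝ) : nn (A + B + C) ≤ 3 * (nn A + nn B + nn C) := by
  unfold nn
  rw [← sum_add_distrib, ← sum_add_distrib, mul_sum]
  refine sum_le_sum fun i _ => ?_
  rw [← sum_add_distrib, ← sum_add_distrib, mul_sum]
  refine sum_le_sum fun j _ => ?_
  rw [Matrix.add_apply, Matrix.add_apply]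
  nlinarith [sq_nonneg (A i j - B i j), sq_nonneg (A i j - C i j), sq_nonneg (B i j - C i j)]

theorem nn_transpose (A : Matrix X X ℝ) : nn Aᵀ = nn A := by
  unfold nn
  rw [sum_comm]
  rfl

theorem nn_sub_comm (A B : Matrix X X ℝ) : nn (A - B) = nn (B - A) := by
  unfold nn
  refine sum_congr rfl fun i _ => sum_congr rfl fun j _ => ?_
  rw [Matrix.sub_apply, Matrix.sub_apply]
  ring

theorem nn_submatrix (A : Matrix X X ℝ) (x : Equiv.Perm X) : nn (A.submatrix x id) = nn A := by
  unfold nn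
  simp only [Matrix.submatrix_apply, id]
  exact Equiv.sum_comp x fun i => ∑ j, A i j ^ 2

theorem DS.transpose {P : Matrix X X ℝ} (h : DS P) : DS Pᵀ :=
  ⟨fun i j => h.nonneg j i, h.col, h.row⟩

theorem DS.mul_left {P : Matrix X X ℝ} (h : DS P) (A : Matrix X X ℝ) : nn (P * A) ≤ nn A := by
  have h1 : ∀ i k, (P * A) i k ^ 2 ≤ ∑ j, P i j * A j k ^ 2 := by
    intro i k
    set m : ℝ := (P * A) i k with hm
    have h2 : m = ∑ j, P i j * A j k := Matrix.mul_apply
    have h3 : 0 ≤ ∑ j, P i j * (A j k - m) ^ 2 :=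
      sum_nonneg fun j _ => mul_nonneg (h.nonneg i j) (sq_nonneg _)
    have h4 : ∑ j, P i j * (A j k - m) ^ 2 =
        ∑ j, P i j * A j k ^ 2 - 2 * m * ∑ j, P i j * A j k + m ^ 2 * ∑ j, P i j := by
      rw [mul_sum, mul_sum, ← sum_sub_distrib, ← sum_add_distrib]
      exact sum_congr rfl fun j _ => by ring
    rw [h4, ← h2, h.row] at h3
    nlinarith
  unfold nn
  calc ∑ i, ∑ k, (P * A) i k ^ 2 ≤ ∑ i, ∑ k, ∑ j, P i j * A j k ^ 2 :=
        sum_le_sum fun i _ => sum_le_sum fun k _ => h1 i k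
    _ = ∑ j, ∑ k, A j k ^ 2 := by
        calc ∑ i, ∑ k, ∑ j, P i j * A j k ^ 2 = ∑ i, ∑ j, ∑ k, P i j * A j k ^ 2 :=
              sum_congr rfl fun i _ => sum_comm
          _ = ∑ j, ∑ i, ∑ k, P i j * A j k ^ 2 := sum_comm
          _ = ∑ j, ∑ k, A j k ^ 2 := by
              refine sum_congr rfl fun j _ => ?_
              simp only [← mul_sum]
              rw [← sum_mul, h.col, one_mul]

theorem DS.mul_right {P : Matrix X X ℝ} (h : DS P) (A : Matrix X X ℝ) : nn (A * P) ≤ nn A := by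
  rw [← nn_transpose (A * P), Matrix.transpose_mul, ← nn_transpose A]
  exact h.transpose.mul_left Aᵀ

theorem DS.le_one {P : Matrix X X ℝ} (h : DS P) (i j : X) : P i j ≤ 1 := by
  rw [← h.row i]
  exact single_le_sum (f := fun j => P i j) (fun j _ => h.nonneg i j) (mem_univ j)

theorem DS.nn_le {P : Matrix X X ℝ} (h : DS P) : nn P ≤ Fintype.card X := by
  unfold nn
  calc ∑ i, ∑ j, P i j ^ 2 ≤ ∑ i, ∑ j, P i j := by
        refine sum_le_sum fun i _ => sum_le_sum fun j _ => ?_
        have h1 := h.nonneg i j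
        have h2 := h.le_one i j
        nlinarith
    _ = ∑ _i : X, (1 : ℝ) := sum_congr rfl fun i _ => h.row i
    _ = Fintype.card X := by rw [sum_const, card_univ, nsmul_eq_mul, mul_one]

theorem ip_sq_le (A B : Matrix X X ℝ) : ip A B ^ 2 ≤ nn A * nn B := by
  unfold ip nn
  rw [← sum_product' (s := univ) (t := univ) (f := fun i j => A i j * B i j),
    ← sum_product' (s := univ) (t := univ) (f := fun i j => A i j ^ 2),
    ← sum_product' (s := univ) (t := univ) (f := fun i j => B i j ^ 2)]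
  exact sum_mul_sq_le_sq_mul_sq _ _ _

theorem DS.key {P : Matrix X X ℝ} (h : DS P) : nn (P - Pᵀ * P) ≤ 2 * ip P (P - P * P) := by
  have h1 : ip P (Pᵀ * P) = ip P (P * P) := by
    unfold ip
    simp only [Matrix.mul_apply, Matrix.transpose_apply, mul_sum]
    calc ∑ i, ∑ j, ∑ k, P i j * (P k i * P k j) = ∑ i, ∑ k, ∑ j, P i j * (P k i * P k j) :=
          sum_congr rfl fun i _ => sum_comm
      _ = ∑ k, ∑ i, ∑ j, P i j * (P k i * P k j) := sum_comm
      _ = ∑ k, ∑ j, ∑ i, P i j * (P k i * P k j) := sum_congr rfl fun k _ => sum_comm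
      _ = ∑ k, ∑ j, ∑ i, P k j * (P k i * P i j) := by
          refine sum_congr rfl fun k _ => sum_congr rfl fun j _ => sum_congr rfl fun i _ => ?_
          ring
  have h2 : nn (P - Pᵀ * P) = nn P - 2 * ip P (Pᵀ * P) + nn (Pᵀ * P) := by
    unfold nn ip
    rw [mul_sum, ← sum_sub_distrib, ← sum_add_distrib]
    refine sum_congr rfl fun i _ => ?_
    rw [mul_sum, ← sum_sub_distrib, ← sum_add_distrib]
    refine sum_congr rfl fun j _ => ?_
    rw [Matrix.sub_apply]
    ring
  have h3 : nn (Pᵀ * P) ≤ nn P := h.transpose.mul_left P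
  have h4 : ip P (P - P * P) = nn P - ip P (P * P) := by
    unfold nn ip
    rw [← sum_sub_distrib]
    refine sum_congr rfl fun i _ => ?_
    rw [← sum_sub_distrib]
    refine sum_congr rfl fun j _ => ?_
    rw [Matrix.sub_apply]
    ring
  rw [h2, h1, h4]
  linarith

theorem DS.symm_close {P : Matrix X X ℝ} (h : DS P) : nn (P - Pᵀ) ≤ 8 * ip P (P - P * P) := by
  have h1 : P - Pᵀ = (P - Pᵀ * P) + (Pᵀ * P - Pᵀ) := by abel
  have h2 : nn (Pᵀ * P - Pᵀ) = nn (P - Pᵀ * P) := by
    rw [← nn_transpose (Pᵀ * P - Pᵀ), nn_sub_comm P]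
    congr 1
    rw [Matrix.transpose_sub, Matrix.transpose_mul, Matrix.transpose_transpose]
  have h3 := nn_add (P - Pᵀ * P) (Pᵀ * P - Pᵀ)
  rw [← h1, h2] at h3
  have h4 := h.key
  linarith

/-- A function on a finite set which changes little under permutations that generate a transitive
group is almost constant. -/
theorem small_change (S : Set (Equiv.Perm X)) (htr : ∀ i j : X, ∃ g ∈ Subgroup.closure S, g i = j)
    (f : X → ℝ) (η : ℝ) (hη : 0 ≤ η) (hf : ∀ x ∈ S, ∀ i, |f (x i) - f i| ≤ η) (i j : X) :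
    |f i - f j| ≤ Fintype.card X * η := by
  classical
  set G : SimpleGraph X := SimpleGraph.fromRel (fun a b => ∃ x ∈ S, x a = b) with hG
  have hadj : ∀ a b, G.Adj a b → |f a - f b| ≤ η := by
    intro a b hab
    rw [hG, SimpleGraph.fromRel_adj] at hab
    rcases hab.2 with ⟨x, hx, h⟩ | ⟨x, hx, h⟩
    · rw [← h, abs_sub_comm]
      exact hf x hx a
    · rw [← h]
      exact hf x hx b
  have hstep : ∀ x ∈ S, ∀ a, G.Reachable a (x a) := by
    intro x hx a
    by_cases h : a = x a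
    · rw [← h]
    · apply SimpleGraph.Adj.reachable
      rw [hG, SimpleGraph.fromRel_adj]
      exact ⟨h, Or.inl ⟨x, hx, rfl⟩⟩
  have hreach : ∀ g ∈ Subgroup.closure S, ∀ a, G.Reachable a (g a) := by
    intro g hg
    induction hg using Subgroup.closure_induction with
    | mem x hx => exact hstep x hx
    | one => intro a; exact SimpleGraph.Reachable.refl _
    | mul x y _ _ hx hy =>
      intro a
      rw [Equiv.Perm.mul_apply]
      exact (hy a).trans (hx (y a))
    | inv x _ hx =>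
      intro a
      have h1 := hx (x⁻¹ a)
      rw [← Equiv.Perm.mul_apply, mul_inv_cancel, Equiv.Perm.one_apply] at h1
      exact h1.symm
  obtain ⟨g, hg, hgi⟩ := htr i j
  have hr := hreach g hg i
  rw [hgi] at hr
  obtain ⟨w, hw⟩ := hr.exists_isPath
  have hwalk : ∀ a b (w : G.Walk a b), |f a - f b| ≤ w.length * η := by
    intro a b w
    induction w with
    | nil => simp
    | cons hab p ih =>
      rw [SimpleGraph.Walk.length_cons]
      push_cast
      have h1 := hadj _ _ hab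
      have h2 := abs_sub_le (f _) (f _) (f _) |>.trans (add_le_add h1 ih)
      linarith
  have h1 := hwalk i j w
  have h2 : (w.length : ℝ) ≤ Fintype.card X := by exact_mod_cast hw.length_lt.le
  exact h1.trans (mul_le_mul_of_nonneg_right h2 hη)

/-- The deterministic lemma. -/
theorem entries_pos (P1 P2 P3 : Matrix X X ℝ) (d1 : DS P1) (e : ℝ)
    (he0 : 0 ≤ e) (he : 10 ^ 8 * (Fintype.card X : ℝ) ^ 9 * e ≤ 1)
    (h13 : nn (P1 * P3 - P1) ≤ e) (h13' : nn (P1 * P3 - P3) ≤ e)
    (h12 : nn (P1 * P2 - P1) ≤ e) (h12' : nn (P1 * P2 - P2) ≤ e)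
    (S T : Set (Equiv.Perm X))
    (hS : ∀ x ∈ S, ∑ i, ∑ j, (P1 i (x j) - P1 i j) ^ 2 ≤ e)
    (hT : ∀ x ∈ T, ∑ i, ∑ j, (P3 (x i) j - P3 i j) ^ 2 ≤ e)
    (htr : ∀ i j : X, ∃ g ∈ Subgroup.closure (S ∪ T), g i = j) :
    ∀ i j, 1 / (2 * (Fintype.card X : ℝ)) ≤ P1 i j ∧ 1 / (2 * (Fintype.card X : ℝ)) ≤ P2 i j ∧
      1 / (2 * (Fintype.card X : ℝ)) ≤ P3 i j := by
  intro i₀ j₀
  set D : ℝ := (Fintype.card X : ℝ) with hD
  have hD1 : 1 ≤ D := by
    rw [hD]
    exact_mod_cast Fintype.card_pos_iff.2 ⟨i₀⟩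
  have hD0 : 0 < D := by linarith
  -- the three matrices are close
  have c13 : nn (P1 - P3) ≤ 4 * e := by
    have h1 := nn_add (P1 - P1 * P3) (P1 * P3 - P3)
    have h2 : (P1 - P1 * P3) + (P1 * P3 - P3) = P1 - P3 := by abel
    rw [h2, nn_sub_comm P1 (P1 * P3)] at h1
    linarith
  have c12 : nn (P1 - P2) ≤ 4 * e := by
    have h1 := nn_add (P1 - P1 * P2) (P1 * P2 - P2)
    have h2 : (P1 - P1 * P2) + (P1 * P2 - P2) = P1 - P2 := by abel
    rw [h2, nn_sub_comm P1 (P1 * P2)] at h1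
    linarith
  have c11 : nn (P1 - P1 * P1) ≤ 10 * e := by
    have h1 := nn_add (P1 - P1 * P2) (P1 * P2 - P1 * P1)
    have h2 : (P1 - P1 * P2) + (P1 * P2 - P1 * P1) = P1 - P1 * P1 := by abel
    rw [h2, nn_sub_comm P1 (P1 * P2), ← Matrix.mul_sub] at h1
    have h3 := d1.mul_left (P2 - P1)
    rw [nn_sub_comm P2 P1] at h3
    linarith
  set s : ℝ := ip P1 (P1 - P1 * P1) with hs
  have hs2 : s ^ 2 ≤ D * (10 * e) := by
    refine (ip_sq_le _ _).trans ?_
    exact mul_le_mul d1.nn_le c11 (nn_nonneg _) hD0.le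
  have heD : e ≤ 1 / (10 ^ 8 * D ^ 9) := by
    rw [le_div_iff₀ (by positivity)]
    linarith
  have hs3 : s ≤ 1 / (3000 * D ^ 4) := by
    have h1 : s ^ 2 ≤ (1 / (3000 * D ^ 4)) ^ 2 := by
      calc s ^ 2 ≤ D * (10 * e) := hs2
        _ ≤ D * (10 * (1 / (10 ^ 8 * D ^ 9))) := by gcongr
        _ = 10 / (10 ^ 8 * D ^ 8) := by
            field_simp
        _ ≤ 1 / (9000000 * D ^ 8) := by
            rw [div_le_div_iff₀ (by positivity) (by positivity)]
            have : 0 < D ^ 8 := by positivity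
            nlinarith
        _ = (1 / (3000 * D ^ 4)) ^ 2 := by
            field_simp
            norm_num
    exact (le_abs_self s).trans (abs_le_of_sq_le_sq h1 (by positivity))
  have hsym : nn (P1 - P1ᵀ) ≤ 8 * s := d1.symm_close
  -- left invariance of `P1` under all generators
  have hinv : ∀ x ∈ S ∪ T, ∑ i, ∑ j, (P1 (x i) j - P1 i j) ^ 2 ≤ 48 * s + 27 * e := by
    have hs0 : 0 ≤ s := by
      have := nn_nonneg (P1 - P1ᵀ)
      linarith
    intro x hx
    rcases hx with hx | hx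
    · have h1 := nn_add3 ((P1 - P1ᵀ).submatrix x id)
        (Matrix.of fun i j => P1 j (x i) - P1 j i) (P1ᵀ - P1)
      rw [nn_submatrix, nn_sub_comm P1ᵀ P1] at h1
      have h2 : nn (Matrix.of fun i j => P1 j (x i) - P1 j i) ≤ e := by
        refine le_trans (le_of_eq ?_) (hS x hx)
        unfold nn
        rw [sum_comm]
        rfl
      have h3 : nn ((P1 - P1ᵀ).submatrix x id + (Matrix.of fun i j => P1 j (x i) - P1 j i) +
          (P1ᵀ - P1)) = ∑ i, ∑ j, (P1 (x i) j - P1 i j) ^ 2 := by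
        unfold nn
        refine sum_congr rfl fun i _ => sum_congr rfl fun j _ => ?_
        simp only [Matrix.add_apply, Matrix.submatrix_apply, Matrix.sub_apply, id,
          Matrix.transpose_apply, Matrix.of_apply]
        ring
      rw [h3] at h1
      linarith
    · have h1 := nn_add3 ((P1 - P3).submatrix x id)
        (Matrix.of fun i j => P3 (x i) j - P3 i j) (P3 - P1)
      rw [nn_submatrix, nn_sub_comm P3 P1] at h1
      have h2 : nn (Matrix.of fun i j => P3 (x i) j - P3 i j) ≤ e := hT x hx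
      have h3 : nn ((P1 - P3).submatrix x id + (Matrix.of fun i j => P3 (x i) j - P3 i j) +
          (P3 - P1)) = ∑ i, ∑ j, (P1 (x i) j - P1 i j) ^ 2 := by
        unfold nn
        refine sum_congr rfl fun i _ => sum_congr rfl fun j _ => ?_
        simp only [Matrix.add_apply, Matrix.submatrix_apply, Matrix.sub_apply, id, Matrix.of_apply]
        ring
      rw [h3] at h1
      linarith
  have hη2 : 48 * s + 27 * e ≤ (1 / (4 * D ^ 2)) ^ 2 := by
    calc 48 * s + 27 * e ≤ 48 * (1 / (3000 * D ^ 4)) + 27 * (1 / (10 ^ 8 * D ^ 9)) := by gcongr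
      _ ≤ 48 * (1 / (3000 * D ^ 4)) + 27 * (1 / (10 ^ 8 * D ^ 4)) := by
          gcongr
          norm_num
      _ ≤ 1 / (16 * D ^ 4) := by
          have h1 : 48 * (1 / (3000 * D ^ 4)) + 27 * (1 / (10 ^ 8 * D ^ 4)) =
              (48 / 3000 + 27 / 10 ^ 8) * (1 / D ^ 4) := by
            field_simp
          have h2 : 1 / (16 * D ^ 4) = (1 / 16) * (1 / D ^ 4) := by
            field_simp
          rw [h1, h2]
          apply mul_le_mul_of_nonneg_right _ (by positivity)
          norm_num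
      _ = (1 / (4 * D ^ 2)) ^ 2 := by
          field_simp
          norm_num
  have hent : ∀ x ∈ S ∪ T, ∀ i, |P1 (x i) j₀ - P1 i j₀| ≤ 1 / (4 * D ^ 2) := by
    intro x hx i
    apply abs_le_of_sq_le_sq _ (by positivity)
    refine le_trans ?_ ((hinv x hx).trans hη2)
    exact sq_le_nn (Matrix.of fun i j => P1 (x i) j - P1 i j) i j₀
  -- a large entry of the column
  obtain ⟨i₁, hi₁⟩ : ∃ i₁, 1 / D ≤ P1 i₁ j₀ := by
    by_contra hno
    push Not at hno
    have h1 : ∑ i, P1 i j₀ < ∑ _i : X, 1 / D :=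
      sum_lt_sum_of_nonempty ⟨i₀, mem_univ _⟩ fun i _ => hno i
    rw [d1.col, sum_const, card_univ, nsmul_eq_mul, ← hD, mul_one_div, div_self hD0.ne'] at h1
    exact lt_irrefl _ h1
  have h1 := small_change (S ∪ T) htr (fun i => P1 i j₀) (1 / (4 * D ^ 2)) (by positivity) hent i₁ i₀
  rw [← hD] at h1
  have h2 : D * (1 / (4 * D ^ 2)) = 1 / (4 * D) := by
    field_simp
  have h3 : 3 * (1 / (4 * D)) ≤ P1 i₀ j₀ := by
    have h4 := (abs_le.1 h1).2
    have h5 : 1 / D = 4 * (1 / (4 * D)) := by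
      field_simp
    rw [h2] at h4
    change P1 i₁ j₀ - P1 i₀ j₀ ≤ 1 / (4 * D) at h4
    linarith
  have h4e : 4 * e ≤ (1 / (4 * D)) ^ 2 := by
    calc 4 * e ≤ 4 * (1 / (10 ^ 8 * D ^ 9)) := by gcongr
      _ ≤ 4 * (1 / (10 ^ 8 * D ^ 2)) := by
          gcongr
          norm_num
      _ ≤ (1 / (4 * D)) ^ 2 := by
          have h1 : 4 * (1 / (10 ^ 8 * D ^ 2)) = (4 / 10 ^ 8) * (1 / D ^ 2) := by
            field_simp
          have h2 : (1 / (4 * D)) ^ 2 = (1 / 16) * (1 / D ^ 2) := by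
            field_simp
            norm_num
          rw [h1, h2]
          apply mul_le_mul_of_nonneg_right _ (by positivity)
          norm_num
  have h5 : 0 < 1 / (4 * D) := by positivity
  have h6 : 1 / (2 * D) = 2 * (1 / (4 * D)) := by
    field_simp
    norm_num
  have hc2 := abs_le.1 (abs_le_of_sq_le_sq (((sq_le_nn (P1 - P2) i₀ j₀).trans c12).trans h4e)
    (by positivity))
  have hc3 := abs_le.1 (abs_le_of_sq_le_sq (((sq_le_nn (P1 - P3) i₀ j₀).trans c13).trans h4e)
    (by positivity))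
  rw [Matrix.sub_apply] at hc2 hc3
  rw [h6]
  refine ⟨by linarith, by linarith [hc2.2], by linarith [hc3.2]⟩

end Pool.Agent.PWN
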